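import Pool.Agent.Y445.R8.FB
import Pool.Agent.Helper112.Arith

/-!
The first moment over a thin subgroup.
-/

set_option autoImplicit false

namespace Pool.Agent.Y445.R8

open Finset
open Pool.Agent.Y766.R8 (NU S_SUB S_FMG avg)

open Classical in
/-- the basic inequality -/
theorem core {q d : ℕ} [NeZero q] [NeZero d] (hd : d ∣ q) (F : Finset (DirichletCharacter ℂ d))
    (H : Subgroup (DirichletCharacter ℂ d)) (hFH : ∀ η, η ∈ F ↔ η ∈ H)
    (ψ : DirichletCharacter ℂ q) (t : ℝ) {y N J : ℕ} (hy : 1 ≤ y) (hyN : y ≤ N) (hNJ : N ≤ 2 ^ J)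
    {D : ℝ} (hD0 : 0 ≤ D) (hD : ∀ k, 1 ≤ k → k ≤ y * N → (k.divisors.card : ℝ) ≤ D) :
    (F.card : ℝ) ≤ 2 * Real.sqrt y *
      (∑ η ∈ F.filter (fun η => ψ * DirichletCharacter.changeLevel hd η ≠ 1),
        ‖(ψ * DirichletCharacter.changeLevel hd η).LFunction (1 / 2 + (t : ℂ) * Complex.I)‖) +
      F.card * (D * ∑ i ∈ range J, ((2 ^ i * y : ℕ) : ℝ) ^ (-(1 / 2) : ℝ) *
        NU (ann H) (2 ^ (i + 1) * y)) + 4 * Real.sqrt y * Real.sqrt N +
      (1 + |t|) * (4 * Real.sqrt y * q) * (2 * (N : ℝ) ^ (-(1 / 2) : ℝ)) := by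
  obtain ⟨s, hs⟩ : ∃ s : ℂ, s = 1 / 2 + (t : ℂ) * Complex.I := ⟨_, rfl⟩
  have hsre : s.re = 1 / 2 := by rw [hs]; simp
  rw [← hs]
  have hN1 : 1 ≤ N := hy.trans hyN
  obtain ⟨I, hI⟩ : ∃ I, I = F.filter (fun η => ψ * DirichletCharacter.changeLevel hd η ≠ 1) :=
    ⟨_, rfl⟩
  have htail := fun x => tail_norm hd F H hFH ψ hsre y N x
  have hrem := fun a => rem_norm hd F ψ hsre y a
  have hsplit : ∀ g : DirichletCharacter ℂ d → ℂ, ∑ η ∈ F, g η = ∑ η ∈ I, g η +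
      ∑ η ∈ F.filter (fun η => ¬ ψ * DirichletCharacter.changeLevel hd η ≠ 1), g η := by
    intro g
    rw [hI]
    exact (sum_filter_add_sum_filter_not F
      (fun η => ψ * DirichletCharacter.changeLevel hd η ≠ 1) g).symm
  rw [← hI] at htail ⊢
  obtain ⟨S, hS⟩ : ∃ S : ℂ, S = ∑ η ∈ I, ww hd ψ s y η *
      (ψ * DirichletCharacter.changeLevel hd η).LFunction s := ⟨_, rfl⟩
  obtain ⟨M, hM⟩ : ∃ M : ℂ, M = ∑ n ∈ Icc 1 N, (∑ η ∈ I, ww hd ψ s y η *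
      (ψ * DirichletCharacter.changeLevel hd η) (n : ZMod q)) * (n : ℂ) ^ (-s) := ⟨_, rfl⟩
  obtain ⟨M0, hM0⟩ : ∃ M0 : ℂ, M0 = ∑ n ∈ Icc 1 N, (∑ η ∈ F, ww hd ψ s y η *
      (ψ * DirichletCharacter.changeLevel hd η) (n : ZMod q)) * (n : ℂ) ^ (-s) := ⟨_, rfl⟩
  have hsn : ‖s‖ ≤ 1 + |t| := by
    rw [hs]
    refine (norm_add_le _ _).trans ?_
    rw [norm_mul, Complex.norm_I, mul_one, Complex.norm_real, Real.norm_eq_abs]
    have : ‖(1 / 2 : ℂ)‖ ≤ 1 := by rw [norm_div]; norm_num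
    linarith
  -- the weighted sum of the values
  have h1 : ‖S‖ ≤ 2 * Real.sqrt y * (∑ η ∈ I,
      ‖(ψ * DirichletCharacter.changeLevel hd η).LFunction s‖) := by
    rw [hS, mul_sum]
    refine (norm_sum_le _ _).trans (sum_le_sum fun η _ => ?_)
    rw [norm_mul]
    exact mul_le_mul_of_nonneg_right (ww_norm hd ψ hsre y η) (norm_nonneg _)
  -- truncation
  have h2 : ‖S - M‖ ≤ (1 + |t|) * (4 * Real.sqrt y * q) * (2 * (N : ℝ) ^ (-(1 / 2) : ℝ)) := by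
    have h3 := avg I (fun η => ψ * DirichletCharacter.changeLevel hd η) (ww hd ψ s y)
      (fun η hη => by rw [hI] at hη; exact (mem_filter.1 hη).2) hN1 (s := s)
      (by rw [hsre]; norm_num) htail
    rw [hS, hM]
    refine h3.trans ?_
    rw [hsre]
    calc ‖s‖ * (4 * Real.sqrt y * q * ((N : ℝ) ^ (-(1 / 2) : ℝ) / (1 / 2)))
        ≤ (1 + |t|) * (4 * Real.sqrt y * q * ((N : ℝ) ^ (-(1 / 2) : ℝ) / (1 / 2))) := by gcongr
      _ = _ := by ring
  -- the removed characters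
  have h3 : ‖M0 - M‖ ≤ 4 * Real.sqrt y * Real.sqrt N := by
    rw [hM0, hM, ← sum_sub_distrib]
    calc _ ≤ ∑ n ∈ Icc 1 N, 2 * Real.sqrt y * (n : ℝ) ^ (-(1 / 2) : ℝ) := by
          refine (norm_sum_le _ _).trans (sum_le_sum fun n hn => ?_)
          rw [mem_Icc] at hn
          rw [← sub_mul, norm_mul, cpow_norm hsre hn.1, hsplit, add_sub_cancel_left]
          exact mul_le_mul_of_nonneg_right (hrem _) (by positivity)
      _ = 2 * Real.sqrt y * ∑ n ∈ Icc 1 N, (n : ℝ) ^ (-(1 / 2) : ℝ) := by rw [mul_sum]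
      _ ≤ 2 * Real.sqrt y * (2 * Real.sqrt N) := by
          gcongr
          exact sum_inv_sqrt N
      _ = _ := by ring
  -- the head
  obtain ⟨G, hG⟩ : ∃ G : ℕ → ℂ, G = fun k : ℕ =>
      if (∃ u ∈ ann H, ((u : (ZMod d)ˣ) : ZMod d) = (k : ZMod d)) then
        ψ (k : ZMod q) * (k : ℂ) ^ (-s) else 0 := ⟨_, rfl⟩
  have h4 : M0 = F.card * ∑ l ∈ Icc 1 y, ∑ n ∈ Icc 1 N,
      (ArithmeticFunction.moebius l : ℂ) * G (l * n) := by
    rw [hM0, sum_comm, mul_sum]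
    refine sum_congr rfl fun n _ => ?_
    rw [f0_eq hd F H hFH ψ s y, sum_mul, mul_sum]
    refine sum_congr rfl fun l _ => ?_
    have e1 : (l : ZMod q) * (n : ZMod q) = ((l * n : ℕ) : ZMod q) := by push_cast; ring
    have e2 : ((l * n : ℕ) : ℂ) ^ (-s) = (l : ℂ) ^ (-s) * (n : ℂ) ^ (-s) := by
      rw [Nat.cast_mul, Complex.natCast_mul_natCast_cpow]
    rw [e1, map_natCast, hG]
    simp only
    rw [e2]
    split_ifs
    · ring
    · ring
  have h5 := comb G hy hyN hD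
  have hG1 : G 1 = 1 := by
    rw [hG]
    simp only
    rw [if_pos ⟨1, (ann H).one_mem, by rw [Units.val_one, Nat.cast_one]⟩, Nat.cast_one,
      Nat.cast_one, map_one, Complex.one_cpow, one_mul]
  have h6 : ∑ k ∈ Ioc y (y * N), ‖G k‖ ≤ ∑ i ∈ range J, ((2 ^ i * y : ℕ) : ℝ) ^ (-(1 / 2) : ℝ) *
        NU (ann H) (2 ^ (i + 1) * y) := by
    refine le_trans ?_ (dyad (ann H) hy J)
    calc _ ≤ ∑ k ∈ Ioc y (2 ^ J * y), ‖G k‖ := by
          refine sum_le_sum_of_subset_of_nonneg ?_ (fun k _ _ => norm_nonneg _)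
          intro k hk
          rw [mem_Ioc] at hk ⊢
          refine ⟨hk.1, hk.2.trans ?_⟩
          rw [mul_comm]
          exact Nat.mul_le_mul_right _ hNJ
      _ ≤ _ := by
          refine sum_le_sum fun k hk => ?_
          rw [mem_Ioc] at hk
          rw [hG]
          simp only
          split_ifs
          · rw [norm_mul, cpow_norm hsre (by omega)]
            calc _ ≤ 1 * (k : ℝ) ^ (-(1 / 2) : ℝ) := by
                  gcongr
                  exact DirichletCharacter.norm_le_one _ _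
              _ = _ := one_mul _
          · rw [norm_zero]
  have h7 : ‖M0 - F.card‖ ≤ F.card * (D * ∑ i ∈ range J, ((2 ^ i * y : ℕ) : ℝ) ^ (-(1 / 2) : ℝ) *
        NU (ann H) (2 ^ (i + 1) * y)) := by
    have e1 : M0 - F.card = F.card * (∑ l ∈ Icc 1 y, ∑ n ∈ Icc 1 N,
      (ArithmeticFunction.moebius l : ℂ) * G (l * n) - G 1) := by
      rw [h4, hG1]
      ring
    rw [e1, norm_mul, Complex.norm_natCast]
    refine mul_le_mul_of_nonneg_left (h5.trans ?_) (by positivity)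
    exact mul_le_mul_of_nonneg_left h6 hD0
  -- assembly
  have h8 : (F.card : ℂ) = S - (S - M) - (M - M0) - (M0 - F.card) := by ring
  have h9 : (F.card : ℝ) = ‖S - (S - M) - (M - M0) - (M0 - F.card)‖ := by
    rw [← h8, Complex.norm_natCast]
  have h10 := norm_sub_le (S - (S - M) - (M - M0)) (M0 - F.card)
  have h11 := norm_sub_le (S - (S - M)) (M - M0)
  have h12 := norm_sub_le S (S - M)
  rw [norm_sub_rev M M0] at h11
  linarith

/-- **FMG** -/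
theorem fmg (hsub : S_SUB) : S_FMG := by
  classical
  intro δ κ hδ hκ
  obtain ⟨k', hk'⟩ : ∃ k' : ℝ, k' = min κ δ := ⟨_, rfl⟩
  have hk0 : 0 < k' := by rw [hk']; exact lt_min hκ hδ
  have hkκ : k' ≤ κ := by rw [hk']; exact min_le_left _ _
  have hkδ : k' ≤ δ := by rw [hk']; exact min_le_right _ _
  obtain ⟨η, C1, hη, hC1, hS⟩ := hsub δ (k' / 4) hδ (by positivity)
  obtain ⟨Ce, hCe, hdiv⟩ := Pool.Agent.Helper112.divisor_bound (η / 8) (by positivity)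
  obtain ⟨K, hK⟩ : ∃ K : ℝ, K = 8 * (Ce * (16 / η) * (2 * C1)) := ⟨_, rfl⟩
  have hK0 : 0 < K := by rw [hK]; positivity
  refine ⟨64 ^ (2 / δ) + 4 ^ (2 / k') + K ^ (2 / η) + 1, ⌈2 / δ⌉₊, ?_⟩
  intro q d _ _ hd F H hFH hF1 hF2 ψ t hq
  have hq1n : 1 ≤ q := Nat.one_le_iff_ne_zero.2 (NeZero.ne q)
  have hq1 : (1 : ℝ) ≤ q := by exact_mod_cast hq1n
  have hq0 : (0 : ℝ) < q := by linarith
  have hd1n : 1 ≤ d := Nat.one_le_iff_ne_zero.2 (NeZero.ne d)
  have hdq : d ≤ q := Nat.le_of_dvd hq1n hd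
  have ht1 : (1 : ℝ) ≤ 1 + |t| := by linarith [abs_nonneg t]
  have htA : (1 : ℝ) ≤ (1 + |t|) ^ ⌈2 / δ⌉₊ := one_le_pow₀ ht1
  have p1 : (0 : ℝ) < 64 ^ (2 / δ) := by positivity
  have p2 : (0 : ℝ) < 4 ^ (2 / k') := by positivity
  have p3 : (0 : ℝ) < K ^ (2 / η) := by positivity
  have hqC : 64 ^ (2 / δ) + 4 ^ (2 / k') + K ^ (2 / η) + 1 ≤ (q : ℝ) := by
    refine le_trans ?_ hq
    exact le_mul_of_one_le_right (by positivity) htA
  -- the size of `q`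
  have c1 : 64 * (1 + |t|) ≤ (q : ℝ) ^ (δ / 2) := by
    have h1 : (64 * (1 + |t|)) ^ (2 / δ) ≤ (q : ℝ) := by
      refine le_trans ?_ hq
      rw [Real.mul_rpow (by norm_num) (by linarith)]
      have h2 : (1 + |t|) ^ (2 / δ) ≤ (1 + |t|) ^ ⌈2 / δ⌉₊ := by
        rw [← Real.rpow_natCast]
        exact Real.rpow_le_rpow_of_exponent_le ht1 (Nat.le_ceil _)
      gcongr
      linarith
    calc 64 * (1 + |t|) = ((64 * (1 + |t|)) ^ (2 / δ)) ^ (δ / 2) := by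
          rw [← Real.rpow_mul (by linarith)]
          have : 2 / δ * (δ / 2) = 1 := by field_simp
          rw [this, Real.rpow_one]
      _ ≤ _ := Real.rpow_le_rpow (by positivity) h1 (by positivity)
  have c1' : (64 : ℝ) ≤ (q : ℝ) ^ (δ / 2) := by linarith
  have c2 : (4 : ℝ) ≤ (q : ℝ) ^ (k' / 2) := by
    calc (4 : ℝ) = ((4 : ℝ) ^ (2 / k')) ^ (k' / 2) := by
          rw [← Real.rpow_mul (by norm_num)]
          have : 2 / k' * (k' / 2) = 1 := by field_simp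
          rw [this, Real.rpow_one]
      _ ≤ _ := Real.rpow_le_rpow (by positivity) (by linarith) (by positivity)
  have c3 : K ≤ (q : ℝ) ^ (η / 2) := by
    calc K = (K ^ (2 / η)) ^ (η / 2) := by
          rw [← Real.rpow_mul hK0.le]
          have : 2 / η * (η / 2) = 1 := by field_simp
          rw [this, Real.rpow_one]
      _ ≤ _ := Real.rpow_le_rpow (by positivity) (by linarith) (by positivity)
  -- the size of the subgroup
  obtain ⟨h, hh⟩ : ∃ h : ℝ, h = (F.card : ℝ) := ⟨_, rfl⟩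
  have hcard := card_ann F H hFH
  have hU1 : 1 ≤ Nat.card (ann H) := Nat.card_pos
  have hFd : F.card ≤ d := (Nat.le_mul_of_pos_left _ hU1).trans hcard
  have hhq : h ≤ q := by rw [hh]; exact_mod_cast hFd.trans hdq
  rw [← hh] at hF1 hF2
  have hh1 : 1 ≤ h := (Real.one_le_rpow hq1 (by positivity)).trans hF1
  have hh0 : 0 < h := by linarith
  -- powers of `q`
  obtain ⟨w, hw⟩ : ∃ w : ℝ, w = (q : ℝ) ^ (δ / 2) := ⟨_, rfl⟩
  have hw0 : 0 < w := by rw [hw]; positivity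
  rw [← hw] at c1 c1'
  have hw2 : (q : ℝ) ^ δ = w ^ 2 := by
    rw [hw, ← Real.rpow_natCast, ← Real.rpow_mul hq0.le]
    congr 1
    push_cast
    ring
  have hqδ : (q : ℝ) ^ (-δ) = (w ^ 2)⁻¹ := by rw [Real.rpow_neg hq0.le, hw2]
  have hh2 : (q : ℝ) * w ^ 4 ≤ h ^ 2 := by
    calc (q : ℝ) * w ^ 4 = ((q : ℝ) ^ (1 / 2 + δ)) ^ 2 := by
          have e : ((q : ℝ) ^ (1 / 2 : ℝ)) ^ 2 = q := by
            rw [← Real.rpow_natCast, ← Real.rpow_mul hq0.le]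
            norm_num
          rw [Real.rpow_add hq0, mul_pow, hw2, e]
          ring
      _ ≤ h ^ 2 := by gcongr
  -- the length of the mollifier
  obtain ⟨y, hyd⟩ : ∃ y : ℕ, y = ⌊(q : ℝ) ^ (k' / 4)⌋₊ := ⟨_, rfl⟩
  have hyle : (y : ℝ) ≤ (q : ℝ) ^ (k' / 4) := by rw [hyd]; exact Nat.floor_le (by positivity)
  have hylt : (q : ℝ) ^ (k' / 4) < y + 1 := by rw [hyd]; exact Nat.lt_floor_add_one _
  have hy1 : 1 ≤ y := by
    rw [hyd]
    exact Nat.le_floor (by rw [Nat.cast_one]; exact Real.one_le_rpow hq1 (by positivity))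
  have hy1r : (1 : ℝ) ≤ y := by exact_mod_cast hy1
  have hy0 : (0 : ℝ) < y := by linarith
  have hy2w : (y : ℝ) ^ 2 ≤ w := by
    calc (y : ℝ) ^ 2 ≤ ((q : ℝ) ^ (k' / 4)) ^ 2 := by gcongr
      _ = (q : ℝ) ^ (k' / 2) := by
          rw [← Real.rpow_natCast, ← Real.rpow_mul hq0.le]
          congr 1
          push_cast
          ring
      _ ≤ w := by
          rw [hw]
          exact Real.rpow_le_rpow_of_exponent_le hq1 (by linarith)
  have hyw : (y : ℝ) ≤ w := (le_self_pow₀ hy1r two_ne_zero).trans hy2w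
  -- the truncation
  obtain ⟨X, hX⟩ : ∃ X : ℝ, X = y * ((q : ℝ) ^ 2 * w ^ 2) / h ^ 2 := ⟨_, rfl⟩
  have hX0 : 0 < X := by rw [hX]; positivity
  obtain ⟨N, hN⟩ : ∃ N : ℕ, N = ⌈X⌉₊ := ⟨_, rfl⟩
  have hXN : X ≤ N := by rw [hN]; exact Nat.le_ceil _
  have hNX : (N : ℝ) < X + 1 := by rw [hN]; exact Nat.ceil_lt_add_one hX0.le
  have hyN : y ≤ N := by
    have h1 : (y : ℝ) ≤ X := by
      rw [hX, le_div_iff₀ (by positivity)]
      have h2 : h ^ 2 ≤ (q : ℝ) ^ 2 * w ^ 2 := by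
        have h3 : h ^ 2 ≤ (q : ℝ) ^ 2 := by gcongr
        have h4 : (1 : ℝ) ≤ w ^ 2 := one_le_pow₀ (by linarith)
        exact h3.trans (le_mul_of_one_le_right (by positivity) h4)
      gcongr
    exact_mod_cast h1.trans hXN
  have hN1 : 1 ≤ N := hy1.trans hyN
  have hyNb : 2 * ((y : ℝ) * N) ≤ h ^ 2 * (q : ℝ) ^ (-δ) := by
    rw [hqδ, ← div_eq_mul_inv, le_div_iff₀ (by positivity)]
    have h1 : (y : ℝ) * X * w ^ 2 ≤ h ^ 2 / 4 := by
      have h2 : (y : ℝ) * X * w ^ 2 = (y : ℝ) ^ 2 * ((q : ℝ) ^ 2 * w ^ 4) / h ^ 2 := by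
        rw [hX]
        ring
      rw [h2, div_le_iff₀ (by positivity)]
      have h3 : ((q : ℝ) * w ^ 4) ^ 2 ≤ (h ^ 2) ^ 2 := by gcongr
      have h4 : (y : ℝ) ^ 2 * ((q : ℝ) ^ 2 * w ^ 4) ≤ w * ((q : ℝ) ^ 2 * w ^ 4) := by gcongr
      have h5 : w * ((q : ℝ) ^ 2 * w ^ 4) * 4 ≤ ((q : ℝ) * w ^ 4) ^ 2 := by
        have h6 : (4 : ℝ) ≤ w ^ 3 := by
          calc (4 : ℝ) ≤ 64 ^ 3 := by norm_num
            _ ≤ w ^ 3 := by gcongr
        calc w * ((q : ℝ) ^ 2 * w ^ 4) * 4 = (q : ℝ) ^ 2 * w ^ 5 * 4 := by ring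
          _ ≤ (q : ℝ) ^ 2 * w ^ 5 * w ^ 3 := by gcongr
          _ = _ := by ring
      have h7 : h ^ 2 / 4 * h ^ 2 = (h ^ 2) ^ 2 / 4 := by ring
      rw [h7]
      linarith
    have h2 : (y : ℝ) * w ^ 2 ≤ h ^ 2 / 4 := by
      have h3 : (y : ℝ) * w ^ 2 * 4 ≤ (q : ℝ) * w ^ 4 := by
        calc (y : ℝ) * w ^ 2 * 4 ≤ w * w ^ 2 * 64 := by gcongr; norm_num
          _ ≤ w * w ^ 2 * w := by gcongr
          _ = 1 * w ^ 4 := by ring
          _ ≤ _ := by gcongr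
      linarith
    have h3 : 2 * ((y : ℝ) * N) * w ^ 2 ≤ 2 * ((y : ℝ) * (X + 1)) * w ^ 2 := by gcongr
    have h4 : 2 * ((y : ℝ) * (X + 1)) * w ^ 2 = 2 * ((y : ℝ) * X * w ^ 2) + 2 * (y * w ^ 2) := by
      ring
    linarith
  have hyNq : 2 * ((y : ℝ) * N) ≤ (q : ℝ) ^ 2 := by
    refine hyNb.trans ?_
    have h1 : (q : ℝ) ^ (-δ) ≤ 1 := Real.rpow_le_one_of_one_le_of_nonpos hq1 (by linarith)
    calc h ^ 2 * (q : ℝ) ^ (-δ) ≤ (q : ℝ) ^ 2 * 1 := by gcongr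
      _ = _ := mul_one _
  -- the number of blocks
  obtain ⟨J, hJ⟩ : ∃ J : ℕ, J = Nat.clog 2 N := ⟨_, rfl⟩
  have hNJ : N ≤ 2 ^ J := by rw [hJ]; exact Nat.le_pow_clog (by norm_num) N
  have hJN : 2 ^ J ≤ 2 * N := by
    rcases Nat.eq_or_lt_of_le hN1 with h1 | h1
    · rw [hJ, ← h1]
      norm_num
    · have h2 : 2 ^ (Nat.clog 2 N).pred < N := Nat.pow_pred_clog_lt_self (by norm_num) h1
      have h3 : 0 < Nat.clog 2 N := Nat.clog_pos (by norm_num) h1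
      obtain ⟨m, hm⟩ : ∃ m, Nat.clog 2 N = m + 1 := ⟨_, (Nat.succ_pred_eq_of_pos h3).symm⟩
      rw [hm, Nat.pred_succ] at h2
      rw [hJ, hm, pow_succ]
      omega
  have hJb : (J : ℝ) ≤ 16 / η * (q : ℝ) ^ (η / 4) := by
    have h1 : (2 : ℝ) ^ J ≤ (q : ℝ) ^ 2 := by
      have h2 : ((2 : ℝ)) ^ J ≤ 2 * N := by exact_mod_cast hJN
      have h3 : (N : ℝ) ≤ y * N := le_mul_of_one_le_left (by positivity) hy1r
      linarith
    have h2 : (J : ℝ) * Real.log 2 ≤ 2 * Real.log q := by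
      have := Real.log_le_log (by positivity) h1
      rw [Real.log_pow, Real.log_pow] at this
      exact_mod_cast this
    have h3 := Real.log_le_rpow_div hq0.le (show 0 < η / 4 by positivity)
    have h4 : (1 / 2 : ℝ) ≤ Real.log 2 := by linarith [Real.log_two_gt_d9]
    have h5 : (J : ℝ) * (1 / 2) ≤ J * Real.log 2 := by gcongr
    have h6 : 16 / η * (q : ℝ) ^ (η / 4) = 4 * ((q : ℝ) ^ (η / 4) / (η / 4)) := by
      field_simp
      norm_num
    rw [h6]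
    linarith
  -- the divisor bound
  obtain ⟨D, hDd⟩ : ∃ D : ℝ, D = Ce * (q : ℝ) ^ (η / 4) := ⟨_, rfl⟩
  have hD0 : 0 ≤ D := by rw [hDd]; positivity
  have hD : ∀ k, 1 ≤ k → k ≤ y * N → (k.divisors.card : ℝ) ≤ D := by
    intro k hk1 hk2
    refine (hdiv k hk1).trans ?_
    rw [hDd]
    refine mul_le_mul_of_nonneg_left ?_ hCe.le
    have h1 : (k : ℝ) ≤ (q : ℝ) ^ 2 := by
      have h2 : (k : ℝ) ≤ y * N := by exact_mod_cast hk2
      have h3 : (0 : ℝ) ≤ y * N := by positivity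
      linarith
    calc (k : ℝ) ^ (η / 8) ≤ ((q : ℝ) ^ 2) ^ (η / 8) :=
          Real.rpow_le_rpow (by positivity) h1 (by positivity)
      _ = (q : ℝ) ^ (η / 4) := by
          rw [← Real.rpow_natCast, ← Real.rpow_mul hq0.le]
          congr 1
          push_cast
          ring
  -- the blocks
  have hblock : ∀ i ∈ range J, ((2 ^ i * y : ℕ) : ℝ) ^ (-(1 / 2) : ℝ) *
        NU (ann H) (2 ^ (i + 1) * y) ≤ 2 * C1 * (q : ℝ) ^ (-η) := by
    intro i hi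
    rw [mem_range] at hi
    have h1 : (q : ℝ) ^ (k' / 4) ≤ ((2 ^ (i + 1) * y : ℕ) : ℝ) := by
      have h2 : y + 1 ≤ 2 ^ (i + 1) * y := by
        have h3 : 2 ^ 1 ≤ 2 ^ (i + 1) := Nat.pow_le_pow_right (by norm_num) (by omega)
        calc y + 1 ≤ 2 ^ 1 * y := by omega
          _ ≤ _ := Nat.mul_le_mul_right _ h3
      have h4 : ((y + 1 : ℕ) : ℝ) ≤ ((2 ^ (i + 1) * y : ℕ) : ℝ) := by exact_mod_cast h2
      push_cast at h4 ⊢
      linarith
    have h2 : ((2 ^ (i + 1) * y : ℕ) : ℝ) ≤ h ^ 2 * (q : ℝ) ^ (-δ) := by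
      refine le_trans ?_ hyNb
      have h3 : 2 ^ (i + 1) * y ≤ 2 * N * y :=
        Nat.mul_le_mul_right _ ((Nat.pow_le_pow_right (by norm_num) hi).trans hJN)
      have h4 : ((2 ^ (i + 1) * y : ℕ) : ℝ) ≤ ((2 * N * y : ℕ) : ℝ) := by exact_mod_cast h3
      refine h4.trans (le_of_eq ?_)
      push_cast
      ring
    have hUh : (Nat.card (ann H) : ℝ) * h ≤ d := by
      rw [hh]
      exact_mod_cast hcard
    have h3 := hS q d h hdq hF1 hF2 (ann H) hUh (2 ^ (i + 1) * y) h1 h2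
    have h4 : (((2 ^ (i + 1) * y : ℕ) : ℝ)) ^ (1 / 2 : ℝ) =
        (2 : ℝ) ^ (1 / 2 : ℝ) * ((2 ^ i * y : ℕ) : ℝ) ^ (1 / 2 : ℝ) := by
      rw [← Real.mul_rpow (by norm_num) (by positivity)]
      congr 1
      push_cast
      ring
    have h5 : (2 : ℝ) ^ (1 / 2 : ℝ) ≤ 2 := by
      calc (2 : ℝ) ^ (1 / 2 : ℝ) ≤ 2 ^ (1 : ℝ) :=
            Real.rpow_le_rpow_of_exponent_le (by norm_num) (by norm_num)
        _ = 2 := Real.rpow_one _
    have h6 : (0 : ℝ) < ((2 ^ i * y : ℕ) : ℝ) := by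
      have : 0 < 2 ^ i * y := by positivity
      exact_mod_cast this
    have h7 : ((2 ^ i * y : ℕ) : ℝ) ^ (-(1 / 2) : ℝ) * ((2 ^ i * y : ℕ) : ℝ) ^ (1 / 2 : ℝ) = 1 := by
      rw [← Real.rpow_add h6]
      norm_num
    calc _ ≤ ((2 ^ i * y : ℕ) : ℝ) ^ (-(1 / 2) : ℝ) *
          (C1 * ((2 ^ (i + 1) * y : ℕ) : ℝ) ^ (1 / 2 : ℝ) * (q : ℝ) ^ (-η)) := by gcongr
      _ = C1 * (2 : ℝ) ^ (1 / 2 : ℝ) * (q : ℝ) ^ (-η) * (((2 ^ i * y : ℕ) : ℝ) ^ (-(1 / 2) : ℝ) *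
          ((2 ^ i * y : ℕ) : ℝ) ^ (1 / 2 : ℝ)) := by
          rw [h4]
          ring
      _ = C1 * (2 : ℝ) ^ (1 / 2 : ℝ) * (q : ℝ) ^ (-η) := by rw [h7, mul_one]
      _ ≤ C1 * 2 * (q : ℝ) ^ (-η) := by gcongr
      _ = _ := by ring
  have hkey := core hd F H hFH ψ t hy1 hyN hNJ hD0 hD
  obtain ⟨SS, hSS⟩ : ∃ SS : ℝ, SS =
      ∑ η ∈ F.filter (fun η => ψ * DirichletCharacter.changeLevel hd η ≠ 1),
        ‖(ψ * DirichletCharacter.changeLevel hd η).LFunction (1 / 2 + (t : ℂ) * Complex.I)‖ :=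
    ⟨_, rfl⟩
  have hSS0 : 0 ≤ SS := by rw [hSS]; exact sum_nonneg fun _ _ => norm_nonneg _
  have hgoal : h * (q : ℝ) ^ (-κ) ≤ SS := by
    rw [← hSS, ← hh] at hkey
    -- second term
    have t2 : h * (D * ∑ i ∈ range J, ((2 ^ i * y : ℕ) : ℝ) ^ (-(1 / 2) : ℝ) *
        NU (ann H) (2 ^ (i + 1) * y)) ≤ h / 8 := by
      have h1 : ∑ i ∈ range J, ((2 ^ i * y : ℕ) : ℝ) ^ (-(1 / 2) : ℝ) *
          NU (ann H) (2 ^ (i + 1) * y) ≤ J * (2 * C1 * (q : ℝ) ^ (-η)) := by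
        refine (sum_le_sum hblock).trans ?_
        rw [sum_const, card_range, nsmul_eq_mul]
      have h2 : D * (J * (2 * C1 * (q : ℝ) ^ (-η))) ≤ 1 / 8 := by
        calc D * (J * (2 * C1 * (q : ℝ) ^ (-η)))
            ≤ (Ce * (q : ℝ) ^ (η / 4)) * ((16 / η * (q : ℝ) ^ (η / 4)) *
              (2 * C1 * (q : ℝ) ^ (-η))) := by rw [hDd]; gcongr
          _ = K / 8 * ((q : ℝ) ^ (η / 4) * (q : ℝ) ^ (η / 4) * (q : ℝ) ^ (-η)) := by
              rw [hK]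
              ring
          _ = K / 8 * (q : ℝ) ^ (-(η / 2)) := by
              rw [← Real.rpow_add hq0, ← Real.rpow_add hq0]
              congr 2
              ring
          _ ≤ (q : ℝ) ^ (η / 2) / 8 * (q : ℝ) ^ (-(η / 2)) := by gcongr
          _ = 1 / 8 := by
              rw [Real.rpow_neg hq0.le]
              have : (0 : ℝ) < (q : ℝ) ^ (η / 2) := by positivity
              field_simp
      have h3 : D * ∑ i ∈ range J, ((2 ^ i * y : ℕ) : ℝ) ^ (-(1 / 2) : ℝ) *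
          NU (ann H) (2 ^ (i + 1) * y) ≤ 1 / 8 :=
        (mul_le_mul_of_nonneg_left h1 hD0).trans h2
      calc _ ≤ h * (1 / 8) := by gcongr
        _ = _ := by ring
    -- third term
    have t3 : 4 * Real.sqrt y * Real.sqrt N ≤ h / 8 := by
      refine le_of_sq_le_sq ?_ (by positivity)
      have h1 : (4 * Real.sqrt y * Real.sqrt N) ^ 2 = 16 * ((y : ℝ) * N) := by
        rw [mul_pow, mul_pow, Real.sq_sqrt (by positivity), Real.sq_sqrt (by positivity)]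
        ring
      rw [h1]
      have h2 : (q : ℝ) ^ (-δ) ≤ 1 / 4096 := by
        rw [hqδ, inv_eq_one_div]
        refine one_div_le_one_div_of_le (by norm_num) ?_
        calc (4096 : ℝ) = 64 ^ 2 := by norm_num
          _ ≤ w ^ 2 := by gcongr
      have h3 : h ^ 2 * (q : ℝ) ^ (-δ) ≤ h ^ 2 * (1 / 4096) := by gcongr
      have h4 : (h / 8) ^ 2 = h ^ 2 / 64 := by ring
      have h5 := sq_nonneg h
      rw [h4]
      linarith
    -- fourth term
    have t4 : (1 + |t|) * (4 * Real.sqrt y * q) * (2 * (N : ℝ) ^ (-(1 / 2) : ℝ)) ≤ h / 8 := by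
      have h1 : (N : ℝ) ^ (-(1 / 2) : ℝ) ≤ X ^ (-(1 / 2) : ℝ) :=
        Real.rpow_le_rpow_of_nonpos hX0 hXN (by norm_num)
      have h2 : Real.sqrt y * q * X ^ (-(1 / 2) : ℝ) = h / w := by
        have h3 : X = (Real.sqrt y * q * w / h) ^ 2 := by
          rw [hX, div_pow, mul_pow, mul_pow, Real.sq_sqrt (by positivity)]
          ring
        have h4 : X ^ (-(1 / 2) : ℝ) = (Real.sqrt y * q * w / h)⁻¹ := by
          rw [h3, ← Real.rpow_natCast, ← Real.rpow_mul (by positivity), ← Real.rpow_neg_one]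
          norm_num
        rw [h4]
        have h5 : 0 < Real.sqrt y := Real.sqrt_pos.2 hy0
        field_simp
      calc _ ≤ (1 + |t|) * (4 * Real.sqrt y * q) * (2 * X ^ (-(1 / 2) : ℝ)) := by gcongr
        _ = 8 * (1 + |t|) * (Real.sqrt y * q * X ^ (-(1 / 2) : ℝ)) := by ring
        _ = 8 * (1 + |t|) * (h / w) := by rw [h2]
        _ ≤ h / 8 := by
            rw [mul_div_assoc', div_le_iff₀ hw0]
            have h6 := mul_le_mul_of_nonneg_left c1 hh0.le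
            linarith
    have h1 : 5 / 8 * h ≤ 2 * Real.sqrt y * SS := by linarith
    have h2 : Real.sqrt y ≤ (q : ℝ) ^ (k' / 8) := by
      rw [Real.sqrt_le_left (by positivity)]
      refine hyle.trans (le_of_eq ?_)
      rw [← Real.rpow_natCast, ← Real.rpow_mul hq0.le]
      congr 1
      push_cast
      ring
    have h3 : 5 / 8 * h ≤ 2 * (q : ℝ) ^ (k' / 8) * SS := by
      refine h1.trans ?_
      gcongr
    have h4 : (q : ℝ) ^ (-κ) ≤ (q : ℝ) ^ (-k') :=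
      Real.rpow_le_rpow_of_exponent_le hq1 (by linarith)
    have h5 : (q : ℝ) ^ (-k') * (q : ℝ) ^ (k' / 8) ≤ 1 / 4 := by
      rw [← Real.rpow_add hq0]
      calc (q : ℝ) ^ (-k' + k' / 8) ≤ (q : ℝ) ^ (-(k' / 2)) :=
            Real.rpow_le_rpow_of_exponent_le hq1 (by linarith)
        _ = ((q : ℝ) ^ (k' / 2))⁻¹ := Real.rpow_neg hq0.le _
        _ ≤ 4⁻¹ := inv_anti₀ (by norm_num) c2
        _ = _ := by norm_num
    have h6 : 0 < (q : ℝ) ^ (k' / 8) := by positivity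
    have h7 : h * (q : ℝ) ^ (-κ) ≤ h * (q : ℝ) ^ (-k') := by gcongr
    refine h7.trans ?_
    have h8 : (h * (q : ℝ) ^ (-k')) * (q : ℝ) ^ (k' / 8) ≤ SS * (q : ℝ) ^ (k' / 8) := by
      calc (h * (q : ℝ) ^ (-k')) * (q : ℝ) ^ (k' / 8) =
            h * ((q : ℝ) ^ (-k') * (q : ℝ) ^ (k' / 8)) := by ring
        _ ≤ h * (1 / 4) := by gcongr
        _ ≤ SS * (q : ℝ) ^ (k' / 8) := by linarith
    exact le_of_mul_le_mul_right h8 h6
  rw [hh, hSS] at hgoal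
  convert hgoal using 2

end Pool.Agent.Y445.R8
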