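import Pool.Agent.Y766.R8.AV
import Pool.Agent.Y766.R8.Stm2

/-!
Orthogonality over a subgroup of the characters modulo `d`, and the tail of the weighted sums.
-/

set_option autoImplicit false

namespace Pool.Agent.Y445.R8

open Finset
open Pool.Agent.Y766.R8 (NU)

/-- the units on which all characters of `H` are trivial -/
def ann {d : ℕ} (H : Subgroup (DirichletCharacter ℂ d)) : Subgroup (ZMod d)ˣ where
  carrier := {u | ∀ η ∈ H, η (u : ZMod d) = 1}
  mul_mem' := by
    intro a b ha hb η hη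
    rw [Units.val_mul, map_mul, ha η hη, hb η hη, one_mul]
  one_mem' := by
    intro η _
    rw [Units.val_one, map_one]
  inv_mem' := by
    intro a ha η hη
    have h1 := ha η hη
    have h2 : η ((a⁻¹ : (ZMod d)ˣ) : ZMod d) * η (a : ZMod d) = 1 := by
      rw [← map_mul, ← Units.val_mul, inv_mul_cancel, Units.val_one, map_one]
    rw [h1, mul_one] at h2
    exact h2

lemma mem_ann {d : ℕ} {H : Subgroup (DirichletCharacter ℂ d)} {u : (ZMod d)ˣ} :
    u ∈ ann H ↔ ∀ η ∈ H, η (u : ZMod d) = 1 := Iff.rfl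

lemma orth {d : ℕ} (F : Finset (DirichletCharacter ℂ d))
    (H : Subgroup (DirichletCharacter ℂ d)) (hFH : ∀ η, η ∈ F ↔ η ∈ H) (u : (ZMod d)ˣ) :
    (u ∈ ann H → ∑ η ∈ F, η (u : ZMod d) = (F.card : ℂ)) ∧
      (u ∉ ann H → ∑ η ∈ F, η (u : ZMod d) = 0) := by
  classical
  constructor
  · intro h
    rw [sum_congr rfl (fun η hη => h η ((hFH η).1 hη))]
    simp
  · intro h
    obtain ⟨η0, h0, h1⟩ : ∃ η0 ∈ H, η0 (u : ZMod d) ≠ 1 := by
      by_contra hc
      push Not at hc
      exact h hc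
    have h2 : ∑ η ∈ F, (η0 * η) (u : ZMod d) = ∑ η ∈ F, η (u : ZMod d) := by
      refine sum_equiv (Equiv.mulLeft η0) ?_ ?_
      · intro η
        rw [hFH, hFH, Equiv.coe_mulLeft]
        exact (Subgroup.mul_mem_cancel_left H h0).symm
      · intro η _
        rfl
    have h3 : ∑ η ∈ F, (η0 * η) (u : ZMod d) = η0 (u : ZMod d) * ∑ η ∈ F, η (u : ZMod d) := by
      rw [mul_sum]
      refine sum_congr rfl fun η _ => ?_
      rw [MulChar.mul_apply]
    rw [h3] at h2
    have h4 : (η0 (u : ZMod d) - 1) * ∑ η ∈ F, η (u : ZMod d) = 0 := by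
      rw [sub_mul, h2]
      ring
    rcases mul_eq_zero.1 h4 with h5 | h5
    · exact absurd (sub_eq_zero.1 h5) h1
    · exact h5

open Classical in
/-- orthogonality in `ZMod q` -/
lemma orthq {q d : ℕ} [NeZero q] [NeZero d] (hd : d ∣ q) (F : Finset (DirichletCharacter ℂ d))
    (H : Subgroup (DirichletCharacter ℂ d)) (hFH : ∀ η, η ∈ F ↔ η ∈ H)
    (ψ : DirichletCharacter ℂ q) (a : ZMod q) :
    ∑ η ∈ F, (ψ * DirichletCharacter.changeLevel hd η) a =
      if (∃ u ∈ ann H, ((u : (ZMod d)ˣ) : ZMod d) = ZMod.castHom hd (ZMod d) a) then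
        (F.card : ℂ) * ψ a else 0 := by
  by_cases ha : IsUnit a
  · obtain ⟨v, rfl⟩ := ha
    have h1 : ∀ η : DirichletCharacter ℂ d, (ψ * DirichletCharacter.changeLevel hd η) (v : ZMod q) =
        ψ (v : ZMod q) * η ((ZMod.unitsMap hd v : (ZMod d)ˣ) : ZMod d) := by
      intro η
      rw [MulChar.mul_apply, DirichletCharacter.changeLevel_eq_cast_of_dvd, ZMod.unitsMap_val]
    simp_rw [h1]
    rw [← mul_sum]
    have h2 : (∃ u ∈ ann H, ((u : (ZMod d)ˣ) : ZMod d) = ZMod.castHom hd (ZMod d) (v : ZMod q)) ↔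
        ZMod.unitsMap hd v ∈ ann H := by
      have h3 : ZMod.castHom hd (ZMod d) (v : ZMod q) =
          ((ZMod.unitsMap hd v : (ZMod d)ˣ) : ZMod d) := by
        rw [ZMod.unitsMap_val, ZMod.castHom_apply]
      rw [h3]
      constructor
      · rintro ⟨u, hu, h⟩
        rwa [Units.ext_iff.2 h] at hu
      · intro h
        exact ⟨_, h, rfl⟩
    by_cases h : ZMod.unitsMap hd v ∈ ann H
    · rw [if_pos (h2.2 h), (orth F H hFH _).1 h]
      ring
    · rw [if_neg (fun h' => h (h2.1 h')), (orth F H hFH _).2 h, mul_zero]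
  · rw [MulChar.map_nonunit ψ ha, mul_zero, ite_self]
    exact sum_eq_zero fun η _ => MulChar.map_nonunit _ ha

/-- the sizes of the subgroup and of its annihilator -/
lemma card_ann {d : ℕ} [NeZero d] (F : Finset (DirichletCharacter ℂ d))
    (H : Subgroup (DirichletCharacter ℂ d)) (hFH : ∀ η, η ∈ F ↔ η ∈ H) :
    Nat.card (ann H) * F.card ≤ d := by
  classical
  have h1 : ∑ u : (ZMod d)ˣ, ∑ η ∈ F, η (u : ZMod d) = (Nat.card (ann H) : ℂ) * F.card := by
    have h2 : ∀ u : (ZMod d)ˣ, ∑ η ∈ F, η (u : ZMod d) = if u ∈ ann H then (F.card : ℂ) else 0 := by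
      intro u
      split_ifs with h
      · exact (orth F H hFH u).1 h
      · exact (orth F H hFH u).2 h
    simp_rw [h2]
    rw [← sum_filter, sum_const, nsmul_eq_mul, Nat.card_eq_fintype_card, Fintype.card_subtype]
  have h3 : ∑ u : (ZMod d)ˣ, ∑ η ∈ F, η (u : ZMod d) = (Fintype.card (ZMod d)ˣ : ℂ) := by
    rw [sum_comm]
    have h4 : ∀ η : DirichletCharacter ℂ d, ∑ u : (ZMod d)ˣ, η (u : ZMod d) =
        if η = 1 then (Fintype.card (ZMod d)ˣ : ℂ) else 0 := by
      intro η
      split_ifs with h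
      · rw [h]
        simp [MulChar.one_apply_coe]
      · obtain ⟨u0, hu0⟩ := MulChar.ne_one_iff.1 h
        have h5 : ∑ u : (ZMod d)ˣ, η ((u0 * u : (ZMod d)ˣ) : ZMod d) =
            ∑ u : (ZMod d)ˣ, η (u : ZMod d) :=
          Fintype.sum_equiv (Equiv.mulLeft u0) _ _ (fun u => rfl)
        have h6 : ∑ u : (ZMod d)ˣ, η ((u0 * u : (ZMod d)ˣ) : ZMod d) =
            η (u0 : ZMod d) * ∑ u : (ZMod d)ˣ, η (u : ZMod d) := by
          rw [mul_sum]
          refine sum_congr rfl fun u _ => ?_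
          rw [Units.val_mul, map_mul]
        rw [h6] at h5
        have h7 : (η (u0 : ZMod d) - 1) * ∑ u : (ZMod d)ˣ, η (u : ZMod d) = 0 := by
          rw [sub_mul, h5]
          ring
        rcases mul_eq_zero.1 h7 with h8 | h8
        · exact absurd (sub_eq_zero.1 h8) hu0
        · exact h8
    simp_rw [h4]
    rw [sum_ite_eq' F 1, if_pos ((hFH 1).2 H.one_mem)]
  have h5 : Nat.card (ann H) * F.card = Fintype.card (ZMod d)ˣ := by
    have := h1.symm.trans h3
    exact_mod_cast this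
  rw [h5, ZMod.card_units_eq_totient]
  exact Nat.totient_le d

/-- fibres of the reduction -/
lemma fib_card {q d : ℕ} [NeZero q] [NeZero d] (hd : d ∣ q) (b : ZMod d) :
    (univ.filter fun a : ZMod q => ZMod.castHom hd (ZMod d) a = b).card * d = q := by
  classical
  have h1 : ∀ c : ZMod d, (univ.filter fun a : ZMod q => ZMod.castHom hd (ZMod d) a = c).card =
      (univ.filter fun a : ZMod q => ZMod.castHom hd (ZMod d) a = b).card := by
    intro c
    obtain ⟨x, hx⟩ := ZMod.castHom_surjective hd (c - b)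
    symm
    refine card_bij (fun a _ => a + x) ?_ ?_ ?_
    · intro a ha
      rw [mem_filter] at ha ⊢
      refine ⟨mem_univ _, ?_⟩
      rw [map_add, ha.2, hx]
      ring
    · intro a _ a' _ h
      exact add_right_cancel h
    · intro a ha
      rw [mem_filter] at ha
      refine ⟨a - x, ?_, by ring⟩
      rw [mem_filter]
      refine ⟨mem_univ _, ?_⟩
      rw [map_sub, ha.2, hx]
      ring
  have h2 : (univ : Finset (ZMod q)).card = ∑ c : ZMod d,
      (univ.filter fun a : ZMod q => ZMod.castHom hd (ZMod d) a = c).card :=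
    card_eq_sum_card_fiberwise (fun a _ => mem_coe.2 (mem_univ _))
  rw [sum_congr rfl (fun c _ => h1 c), sum_const, card_univ, card_univ, ZMod.card, ZMod.card,
    smul_eq_mul] at h2
  rw [mul_comm]
  exact h2.symm

/-- counting the residues with `l a` in `U` -/
lemma count_le {q d : ℕ} [NeZero q] [NeZero d] (hd : d ∣ q) (U : Subgroup (ZMod d)ˣ)
    (S : Finset (ZMod q)) (l : ZMod d)
    (hS : ∀ a ∈ S, ∃ u ∈ U, ((u : (ZMod d)ˣ) : ZMod d) = l * ZMod.castHom hd (ZMod d) a) :
    S.card * d ≤ Nat.card U * q := by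
  classical
  rcases S.eq_empty_or_nonempty with h | ⟨a0, ha0⟩
  · rw [h]; simp
  obtain ⟨u0, -, h0⟩ := hS a0 ha0
  have hl : IsUnit l := by
    have : IsUnit (l * ZMod.castHom hd (ZMod d) a0) := by rw [← h0]; exact u0.isUnit
    exact isUnit_of_mul_isUnit_left this
  obtain ⟨v, rfl⟩ := hl
  have h1 : S ⊆ (univ.filter fun u : (ZMod d)ˣ => u ∈ U).biUnion (fun u =>
      univ.filter fun a : ZMod q => ZMod.castHom hd (ZMod d) a = ((v⁻¹ * u : (ZMod d)ˣ) : ZMod d)) := by
    intro a ha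
    obtain ⟨u, hu, h⟩ := hS a ha
    rw [mem_biUnion]
    refine ⟨u, ?_, ?_⟩
    · rw [mem_filter]; exact ⟨mem_univ _, hu⟩
    · rw [mem_filter]
      refine ⟨mem_univ _, ?_⟩
      rw [Units.val_mul, h, ← mul_assoc, ← Units.val_mul, inv_mul_cancel, Units.val_one, one_mul]
  have h2 := (card_le_card h1).trans card_biUnion_le
  calc S.card * d ≤ (∑ u ∈ univ.filter fun u : (ZMod d)ˣ => u ∈ U,
        (univ.filter fun a : ZMod q => ZMod.castHom hd (ZMod d) a =
          ((v⁻¹ * u : (ZMod d)ˣ) : ZMod d)).card) * d := Nat.mul_le_mul_right _ h2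
    _ = ∑ u ∈ univ.filter fun u : (ZMod d)ˣ => u ∈ U, q := by
        rw [sum_mul]
        refine sum_congr rfl fun u _ => fib_card hd _
    _ = Nat.card U * q := by
        rw [sum_const, smul_eq_mul, Nat.card_eq_fintype_card, Fintype.card_subtype]

/-- sums over intervals of a function with mean zero -/
lemma sum_Ioc_le {q : ℕ} [NeZero q] (f : ZMod q → ℂ) (hf : ∑ a : ZMod q, f a = 0) (n m : ℕ) :
    ‖∑ k ∈ Ioc n (n + m), f (k : ZMod q)‖ ≤ ∑ a : ZMod q, ‖f a‖ := by
  classical
  induction m using Nat.strong_induction_on generalizing n with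
  | _ m ih =>
    by_cases h : m < q
    · have hinj : Set.InjOn (fun k : ℕ => (k : ZMod q)) (Ioc n (n + m) : Finset ℕ) := by
        intro a ha b hb hab
        rw [mem_coe, mem_Ioc] at ha hb
        have h1 : a ≡ b [MOD q] := (ZMod.natCast_eq_natCast_iff a b q).1 hab
        rcases le_total a b with h | h
        · have h2 := (Nat.modEq_iff_dvd' h).1 h1
          have h3 : b - a < q := by omega
          have := Nat.eq_zero_of_dvd_of_lt h2 h3
          omega
        · have h2 := (Nat.modEq_iff_dvd' h).1 h1.symm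
          have h3 : a - b < q := by omega
          have := Nat.eq_zero_of_dvd_of_lt h2 h3
          omega
      calc ‖∑ k ∈ Ioc n (n + m), f (k : ZMod q)‖
          ≤ ∑ k ∈ Ioc n (n + m), ‖f (k : ZMod q)‖ := norm_sum_le _ _
        _ = ∑ a ∈ (Ioc n (n + m)).image (fun k : ℕ => (k : ZMod q)), ‖f a‖ := by
            rw [sum_image hinj]
        _ ≤ _ := sum_le_sum_of_subset_of_nonneg (subset_univ _) fun _ _ _ => norm_nonneg _
    · push Not at h
      have hq : 0 < q := Nat.pos_of_ne_zero (NeZero.ne q)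
      have h1 : ∑ k ∈ Ioc n (n + m), f (k : ZMod q) =
          ∑ k ∈ Ioc n (n + q), f (k : ZMod q) +
          ∑ k ∈ Ioc (n + q) (n + q + (m - q)), f (k : ZMod q) := by
        have e : n + q + (m - q) = n + m := by omega
        rw [e]
        exact (sum_Ioc_consecutive _ (by omega) (by omega)).symm
      rw [h1, Pool.Agent.H307R2.sum_block, hf, zero_add]
      exact ih (m - q) (by omega) (n + q)

/-- `∑ 1/√j` -/
lemma sum_inv_sqrt (n : ℕ) : ∑ j ∈ Icc 1 n, (j : ℝ) ^ (-(1 / 2) : ℝ) ≤ 2 * Real.sqrt n := by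
  induction n with
  | zero => simp
  | succ n ih =>
    rw [sum_Icc_succ_top (by omega)]
    have h1 : (((n + 1 : ℕ) : ℝ)) ^ (-(1 / 2) : ℝ) = 1 / Real.sqrt ((n : ℝ) + 1) := by
      rw [Real.rpow_neg (by positivity), Real.sqrt_eq_rpow, one_div]
      push_cast
      rw [one_div]
    rw [h1]
    have h2 : 0 < Real.sqrt ((n : ℝ) + 1) := Real.sqrt_pos.2 (by positivity)
    have h3 := Real.sq_sqrt (show (0 : ℝ) ≤ (n : ℝ) + 1 by positivity)
    have h4 := Real.sq_sqrt (show (0 : ℝ) ≤ (n : ℝ) by positivity)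
    have h5 := Real.sqrt_nonneg (n : ℝ)
    have h6 : 1 / Real.sqrt ((n : ℝ) + 1) ≤ 2 * (Real.sqrt ((n : ℝ) + 1) - Real.sqrt n) := by
      rw [div_le_iff₀ h2]
      nlinarith [sq_nonneg (Real.sqrt ((n : ℝ) + 1) - Real.sqrt n)]
    push_cast
    linarith

end Pool.Agent.Y445.R8
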