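import Pool.Agent.Y445.R8.FA

/-!
The weighted first moment over a subgroup: head and tail.
-/

set_option autoImplicit false

namespace Pool.Agent.Y445.R8

open Finset
open Pool.Agent.Y766.R8 (NU avg)

/-- the weights -/
noncomputable def ww {q d : ℕ} (hd : d ∣ q) (ψ : DirichletCharacter ℂ q) (s : ℂ) (y : ℕ)
    (η : DirichletCharacter ℂ d) : ℂ :=
  ∑ l ∈ Icc 1 y, (ArithmeticFunction.moebius l : ℂ) *
    (ψ * DirichletCharacter.changeLevel hd η) (l : ZMod q) * (l : ℂ) ^ (-s)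

lemma mu_norm (l : ℕ) : ‖(ArithmeticFunction.moebius l : ℂ)‖ ≤ 1 := by
  rw [Complex.norm_intCast]
  exact_mod_cast ArithmeticFunction.abs_moebius_le_one

lemma cpow_norm {s : ℂ} (hs : s.re = 1 / 2) {l : ℕ} (hl : 1 ≤ l) :
    ‖(l : ℂ) ^ (-s)‖ = (l : ℝ) ^ (-(1 / 2) : ℝ) := by
  rw [Complex.norm_natCast_cpow_of_pos (by omega), Complex.neg_re, hs]

lemma ww_norm {q d : ℕ} (hd : d ∣ q) (ψ : DirichletCharacter ℂ q) {s : ℂ} (hs : s.re = 1 / 2)
    (y : ℕ) (η : DirichletCharacter ℂ d) : ‖ww hd ψ s y η‖ ≤ 2 * Real.sqrt y := by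
  unfold ww
  refine (norm_sum_le _ _).trans (le_trans (sum_le_sum fun l hl => ?_) (sum_inv_sqrt y))
  rw [mem_Icc] at hl
  rw [norm_mul, norm_mul, cpow_norm hs hl.1]
  calc _ ≤ 1 * 1 * (l : ℝ) ^ (-(1 / 2) : ℝ) := by
        gcongr
        · exact mu_norm l
        · exact DirichletCharacter.norm_le_one _ _
    _ = _ := by ring

open Classical in
lemma f0_eq {q d : ℕ} [NeZero q] [NeZero d] (hd : d ∣ q) (F : Finset (DirichletCharacter ℂ d))
    (H : Subgroup (DirichletCharacter ℂ d)) (hFH : ∀ η, η ∈ F ↔ η ∈ H)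
    (ψ : DirichletCharacter ℂ q) (s : ℂ) (y : ℕ) (a : ZMod q) :
    ∑ η ∈ F, ww hd ψ s y η * (ψ * DirichletCharacter.changeLevel hd η) a =
      ∑ l ∈ Icc 1 y, (ArithmeticFunction.moebius l : ℂ) * (l : ℂ) ^ (-s) *
        (if (∃ u ∈ ann H, ((u : (ZMod d)ˣ) : ZMod d) = ZMod.castHom hd (ZMod d) ((l : ZMod q) * a))
          then (F.card : ℂ) * ψ ((l : ZMod q) * a) else 0) := by
  unfold ww
  simp_rw [sum_mul]
  rw [sum_comm]
  refine sum_congr rfl fun l _ => ?_
  rw [← orthq hd F H hFH ψ ((l : ZMod q) * a), mul_sum]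
  refine sum_congr rfl fun η _ => ?_
  rw [map_mul]
  ring

/-- the `L¹` norm of the weighted sum over the subgroup -/
lemma f0_norm {q d : ℕ} [NeZero q] [NeZero d] (hd : d ∣ q) (F : Finset (DirichletCharacter ℂ d))
    (H : Subgroup (DirichletCharacter ℂ d)) (hFH : ∀ η, η ∈ F ↔ η ∈ H)
    (ψ : DirichletCharacter ℂ q) {s : ℂ} (hs : s.re = 1 / 2) (y : ℕ) :
    ∑ a : ZMod q, ‖∑ η ∈ F, ww hd ψ s y η * (ψ * DirichletCharacter.changeLevel hd η) a‖ ≤
      2 * Real.sqrt y * q := by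
  classical
  have hd0 : 0 < d := Nat.pos_of_ne_zero (NeZero.ne d)
  have h1 : ∀ a : ZMod q,
      ‖∑ η ∈ F, ww hd ψ s y η * (ψ * DirichletCharacter.changeLevel hd η) a‖ ≤
      ∑ l ∈ Icc 1 y, (l : ℝ) ^ (-(1 / 2) : ℝ) * (if (∃ u ∈ ann H,
        ((u : (ZMod d)ˣ) : ZMod d) = (l : ZMod d) * ZMod.castHom hd (ZMod d) a)
          then (F.card : ℝ) else 0) := by
    intro a
    rw [f0_eq hd F H hFH ψ s y a]
    refine (norm_sum_le _ _).trans (sum_le_sum fun l hl => ?_)
    rw [mem_Icc] at hl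
    rw [map_mul, map_natCast, norm_mul, norm_mul, cpow_norm hs hl.1]
    have h2 : ∀ P : Prop, [Decidable P] → ‖(if P then (F.card : ℂ) * ψ ((l : ZMod q) * a) else 0)‖ ≤
        if P then (F.card : ℝ) else 0 := by
      intro P _
      split_ifs
      · rw [norm_mul, Complex.norm_natCast]
        calc _ ≤ (F.card : ℝ) * 1 := by
              gcongr
              exact DirichletCharacter.norm_le_one _ _
          _ = _ := mul_one _
      · rw [norm_zero]
    have h3 : ‖(ArithmeticFunction.moebius l : ℂ)‖ * (l : ℝ) ^ (-(1 / 2) : ℝ) ≤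
        (l : ℝ) ^ (-(1 / 2) : ℝ) :=
      mul_le_of_le_one_left (by positivity) (mu_norm l)
    exact mul_le_mul h3 (h2 _) (norm_nonneg _) (by positivity)
  refine (sum_le_sum fun a _ => h1 a).trans ?_
  rw [sum_comm]
  calc _ ≤ ∑ l ∈ Icc 1 y, (l : ℝ) ^ (-(1 / 2) : ℝ) * q := by
        refine sum_le_sum fun l _ => ?_
        rw [← mul_sum]
        refine mul_le_mul_of_nonneg_left ?_ (by positivity)
        rw [← sum_filter, sum_const, nsmul_eq_mul]
        have h3 := count_le hd (ann H) (univ.filter fun a : ZMod q => ∃ u ∈ ann H,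
          ((u : (ZMod d)ˣ) : ZMod d) = (l : ZMod d) * ZMod.castHom hd (ZMod d) a) (l : ZMod d)
          (fun a ha => (mem_filter.1 ha).2)
        have h4 := card_ann F H hFH
        have h5 : (univ.filter fun a : ZMod q => ∃ u ∈ ann H,
          ((u : (ZMod d)ˣ) : ZMod d) = (l : ZMod d) * ZMod.castHom hd (ZMod d) a).card * F.card ≤ q := by
          refine Nat.le_of_mul_le_mul_right ?_ hd0
          calc _ = ((univ.filter fun a : ZMod q => ∃ u ∈ ann H,
                ((u : (ZMod d)ˣ) : ZMod d) = (l : ZMod d) * ZMod.castHom hd (ZMod d) a).card * d) *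
                  F.card := by ring
            _ ≤ Nat.card (ann H) * q * F.card := Nat.mul_le_mul_right _ h3
            _ = (Nat.card (ann H) * F.card) * q := by ring
            _ ≤ d * q := Nat.mul_le_mul_right _ h4
            _ = q * d := by ring
        exact_mod_cast h5
    _ = (∑ l ∈ Icc 1 y, (l : ℝ) ^ (-(1 / 2) : ℝ)) * q := by rw [sum_mul]
    _ ≤ _ := mul_le_mul_of_nonneg_right (sum_inv_sqrt y) (by positivity)

open Classical in
/-- the characters which are removed -/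
lemma rem_norm {q d : ℕ} [NeZero q] (hd : d ∣ q) (F : Finset (DirichletCharacter ℂ d))
    (ψ : DirichletCharacter ℂ q) {s : ℂ} (hs : s.re = 1 / 2) (y : ℕ) (a : ZMod q) :
    ‖∑ η ∈ F.filter (fun η => ¬ ψ * DirichletCharacter.changeLevel hd η ≠ 1),
      ww hd ψ s y η * (ψ * DirichletCharacter.changeLevel hd η) a‖ ≤ 2 * Real.sqrt y := by
  have hc : (F.filter (fun η => ¬ ψ * DirichletCharacter.changeLevel hd η ≠ 1)).card ≤ 1 := by
    rw [card_le_one]
    intro η hη η' hη'
    rw [mem_filter, not_not] at hη hη'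
    apply DirichletCharacter.changeLevel_injective hd
    have := hη.2.trans hη'.2.symm
    exact mul_left_cancel this
  calc _ ≤ ∑ η ∈ F.filter (fun η => ¬ ψ * DirichletCharacter.changeLevel hd η ≠ 1),
        ‖ww hd ψ s y η * (ψ * DirichletCharacter.changeLevel hd η) a‖ := norm_sum_le _ _
    _ ≤ ∑ η ∈ F.filter (fun η => ¬ ψ * DirichletCharacter.changeLevel hd η ≠ 1),
        (2 * Real.sqrt y) := by
        refine sum_le_sum fun η _ => ?_
        rw [norm_mul]
        calc _ ≤ 2 * Real.sqrt y * 1 := by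
              gcongr
              · exact ww_norm hd ψ hs y η
              · exact DirichletCharacter.norm_le_one _ _
          _ = _ := mul_one _
    _ = ((F.filter (fun η => ¬ ψ * DirichletCharacter.changeLevel hd η ≠ 1)).card : ℝ) *
        (2 * Real.sqrt y) := by rw [sum_const, nsmul_eq_mul]
    _ ≤ 1 * (2 * Real.sqrt y) := by
        gcongr
        exact_mod_cast hc
    _ = _ := one_mul _

open Classical in
/-- the tail -/
lemma tail_norm {q d : ℕ} [NeZero q] [NeZero d] (hd : d ∣ q) (F : Finset (DirichletCharacter ℂ d))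
    (H : Subgroup (DirichletCharacter ℂ d)) (hFH : ∀ η, η ∈ F ↔ η ∈ H)
    (ψ : DirichletCharacter ℂ q) {s : ℂ} (hs : s.re = 1 / 2) (y N x : ℕ) :
    ‖∑ k ∈ Ioc N x, ∑ η ∈ F.filter (fun η => ψ * DirichletCharacter.changeLevel hd η ≠ 1),
      ww hd ψ s y η * (ψ * DirichletCharacter.changeLevel hd η) (k : ZMod q)‖ ≤
      4 * Real.sqrt y * q := by
  obtain ⟨f, hf⟩ : ∃ f : ZMod q → ℂ, f = fun a =>
      ∑ η ∈ F.filter (fun η => ψ * DirichletCharacter.changeLevel hd η ≠ 1),
      ww hd ψ s y η * (ψ * DirichletCharacter.changeLevel hd η) a := ⟨_, rfl⟩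
  have h0 : ∑ a : ZMod q, f a = 0 := by
    rw [hf]
    simp only
    rw [sum_comm]
    refine sum_eq_zero fun η hη => ?_
    rw [← mul_sum, MulChar.sum_eq_zero_of_ne_one (mem_filter.1 hη).2, mul_zero]
  have h1 : ∑ a : ZMod q, ‖f a‖ ≤ 4 * Real.sqrt y * q := by
    have h2 : ∀ a : ZMod q, ‖f a‖ ≤
        ‖∑ η ∈ F, ww hd ψ s y η * (ψ * DirichletCharacter.changeLevel hd η) a‖ +
          2 * Real.sqrt y := by
      intro a
      have h3 : f a = ∑ η ∈ F, ww hd ψ s y η * (ψ * DirichletCharacter.changeLevel hd η) a -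
          ∑ η ∈ F.filter (fun η => ¬ ψ * DirichletCharacter.changeLevel hd η ≠ 1),
          ww hd ψ s y η * (ψ * DirichletCharacter.changeLevel hd η) a := by
        rw [hf, ← sum_filter_add_sum_filter_not F
          (fun η => ψ * DirichletCharacter.changeLevel hd η ≠ 1)]
        ring
      rw [h3]
      exact (norm_sub_le _ _).trans (add_le_add le_rfl (rem_norm hd F ψ hs y a))
    refine (sum_le_sum fun a _ => h2 a).trans ?_
    rw [sum_add_distrib, sum_const, card_univ, ZMod.card, nsmul_eq_mul]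
    have := f0_norm hd F H hFH ψ hs y
    linarith
  rcases le_total N x with h | h
  · obtain ⟨m, rfl⟩ := Nat.exists_eq_add_of_le h
    have := sum_Ioc_le f h0 N m
    rw [hf] at this h1
    exact this.trans h1
  · rw [Ioc_eq_empty_of_le h, sum_empty, norm_zero]
    positivity

/-- the mollified coefficients -/
lemma comb (G : ℕ → ℂ) {y N : ℕ} (hy : 1 ≤ y) (hyN : y ≤ N) {D : ℝ}
    (hD : ∀ k, 1 ≤ k → k ≤ y * N → (k.divisors.card : ℝ) ≤ D) :
    ‖∑ l ∈ Icc 1 y, ∑ n ∈ Icc 1 N, (ArithmeticFunction.moebius l : ℂ) * G (l * n) - G 1‖ ≤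
      D * ∑ k ∈ Ioc y (y * N), ‖G k‖ := by
  classical
  obtain ⟨c, hc⟩ : ∃ c : ℕ → ℂ, c = fun k => ∑ p ∈ (Icc 1 y ×ˢ Icc 1 N).filter
      (fun p : ℕ × ℕ => p.1 * p.2 = k), (ArithmeticFunction.moebius p.1 : ℂ) := ⟨_, rfl⟩
  have h1 : ∑ l ∈ Icc 1 y, ∑ n ∈ Icc 1 N, (ArithmeticFunction.moebius l : ℂ) * G (l * n) =
      ∑ k ∈ Icc 1 (y * N), c k * G k := by
    rw [← sum_product', ← sum_fiberwise_of_maps_to (t := Icc 1 (y * N))
      (g := fun p : ℕ × ℕ => p.1 * p.2)]
    · refine sum_congr rfl fun k _ => ?_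
      rw [hc]
      simp only
      rw [sum_mul]
      refine sum_congr rfl fun p hp => ?_
      rw [(mem_filter.1 hp).2]
    · intro p hp
      rw [mem_product, mem_Icc, mem_Icc] at hp
      rw [mem_Icc]
      exact ⟨Nat.mul_pos hp.1.1 hp.2.1, Nat.mul_le_mul hp.1.2 hp.2.2⟩
  have hsm : ∀ k, 1 ≤ k → k ≤ y → c k = if k = 1 then 1 else 0 := by
    intro k hk1 hky
    have h2 : (Icc 1 y ×ˢ Icc 1 N).filter (fun p : ℕ × ℕ => p.1 * p.2 = k) =
        k.divisorsAntidiagonal := by
      ext p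
      rw [mem_filter, mem_product, mem_Icc, mem_Icc, Nat.mem_divisorsAntidiagonal]
      constructor
      · rintro ⟨-, h⟩
        exact ⟨h, by omega⟩
      · rintro ⟨h, -⟩
        have hp1 : 1 ≤ p.1 := by
          rcases Nat.eq_zero_or_pos p.1 with h0 | h0
          · rw [h0, zero_mul] at h; omega
          · exact h0
        have hp2 : 1 ≤ p.2 := by
          rcases Nat.eq_zero_or_pos p.2 with h0 | h0
          · rw [h0, mul_zero] at h; omega
          · exact h0
        have h3 : p.1 ≤ k := by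
          rw [← h]; exact Nat.le_mul_of_pos_right _ hp2
        have h4 : p.2 ≤ k := by
          rw [← h]; exact Nat.le_mul_of_pos_left _ hp1
        exact ⟨⟨⟨hp1, by omega⟩, ⟨hp2, by omega⟩⟩, h⟩
    have h5 : (ArithmeticFunction.moebius * (ArithmeticFunction.zeta : ArithmeticFunction ℤ)) k =
        (1 : ArithmeticFunction ℤ) k := by
      rw [ArithmeticFunction.moebius_mul_coe_zeta]
    rw [ArithmeticFunction.mul_apply, ArithmeticFunction.one_apply] at h5
    have h6 : ∑ p ∈ k.divisorsAntidiagonal, ArithmeticFunction.moebius p.1 =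
        if k = 1 then 1 else 0 := by
      rw [← h5]
      refine sum_congr rfl fun p hp => ?_
      rw [Nat.mem_divisorsAntidiagonal] at hp
      have hp2 : p.2 ≠ 0 := by
        rintro h0
        rw [h0, mul_zero] at hp
        omega
      rw [ArithmeticFunction.natCoe_apply, ArithmeticFunction.zeta_apply_ne hp2]
      simp
    rw [hc]
    simp only
    rw [h2]
    have h7 : ((∑ p ∈ k.divisorsAntidiagonal, ArithmeticFunction.moebius p.1 : ℤ) : ℂ) =
        ((if k = 1 then 1 else 0 : ℤ) : ℂ) := by rw [h6]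
    push_cast at h7
    exact h7
  have hcn : ∀ k, 1 ≤ k → k ≤ y * N → ‖c k‖ ≤ D := by
    intro k hk1 hk2
    refine le_trans ?_ (hD k hk1 hk2)
    rw [hc]
    refine (norm_sum_le _ _).trans ?_
    calc _ ≤ ∑ p ∈ (Icc 1 y ×ˢ Icc 1 N).filter (fun p : ℕ × ℕ => p.1 * p.2 = k), (1 : ℝ) :=
          sum_le_sum fun p _ => mu_norm _
      _ = (((Icc 1 y ×ˢ Icc 1 N).filter (fun p : ℕ × ℕ => p.1 * p.2 = k)).card : ℝ) := by simp
      _ ≤ _ := by
          have : ((Icc 1 y ×ˢ Icc 1 N).filter (fun p : ℕ × ℕ => p.1 * p.2 = k)).card ≤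
              k.divisors.card := by
            refine card_le_card_of_injOn (fun p => p.1) ?_ ?_
            · intro p hp
              rw [mem_coe, mem_filter] at hp
              rw [mem_coe, Nat.mem_divisors]
              exact ⟨⟨p.2, hp.2.symm⟩, by omega⟩
            · intro p hp p' hp' h
              rw [mem_coe, mem_filter, mem_product, mem_Icc, mem_Icc] at hp hp'
              have h' : p.1 = p'.1 := h
              have h8 : p.1 * p.2 = p.1 * p'.2 := by rw [hp.2, ← hp'.2, h']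
              exact Prod.ext h' (Nat.eq_of_mul_eq_mul_left (by omega) h8)
          exact_mod_cast this
  have hyyN : y ≤ y * N := Nat.le_mul_of_pos_right _ (by omega)
  have h2 : ∑ k ∈ Icc 1 (y * N), c k * G k = G 1 + ∑ k ∈ Ioc y (y * N), c k * G k := by
    have e1 : Icc 1 (y * N) = Ioc 0 (y * N) := by
      ext z; simp only [mem_Icc, mem_Ioc]; omega
    rw [e1, ← sum_Ioc_consecutive _ (Nat.zero_le y) hyyN]
    congr 1
    have e2 : ∑ k ∈ Ioc 0 y, c k * G k = ∑ k ∈ Ioc 0 y, if k = 1 then G 1 else 0 := by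
      refine sum_congr rfl fun k hk => ?_
      rw [mem_Ioc] at hk
      rw [hsm k hk.1 hk.2]
      split_ifs with h
      · rw [h, one_mul]
      · rw [zero_mul]
    rw [e2, sum_ite_eq' (Ioc 0 y) 1, if_pos]
    rw [mem_Ioc]
    omega
  rw [h1, h2, add_sub_cancel_left, mul_sum]
  refine (norm_sum_le _ _).trans (sum_le_sum fun k hk => ?_)
  rw [mem_Ioc] at hk
  rw [norm_mul]
  exact mul_le_mul_of_nonneg_right (hcn k (by omega) hk.2) (norm_nonneg _)

open Classical in
/-- dyadic blocks -/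
lemma dyad {d : ℕ} (U : Subgroup (ZMod d)ˣ) {y : ℕ} (hy : 1 ≤ y) (J : ℕ) :
    ∑ k ∈ Ioc y (2 ^ J * y), (if (∃ u ∈ U, ((u : (ZMod d)ˣ) : ZMod d) = (k : ZMod d)) then
      (k : ℝ) ^ (-(1 / 2) : ℝ) else 0) ≤
      ∑ i ∈ range J, ((2 ^ i * y : ℕ) : ℝ) ^ (-(1 / 2) : ℝ) * NU U (2 ^ (i + 1) * y) := by
  induction J with
  | zero => simp
  | succ J ih =>
    rw [sum_range_succ]
    have h1 : y ≤ 2 ^ J * y := Nat.le_mul_of_pos_left _ (by positivity)
    have h2 : 2 ^ J * y ≤ 2 ^ (J + 1) * y := Nat.mul_le_mul_right _ (Nat.pow_le_pow_right (by norm_num) (by omega))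
    rw [← sum_Ioc_consecutive _ h1 h2]
    refine add_le_add ih ?_
    rw [← sum_filter]
    have h3 : ∀ k ∈ (Ioc (2 ^ J * y) (2 ^ (J + 1) * y)).filter
        (fun k : ℕ => ∃ u ∈ U, ((u : (ZMod d)ˣ) : ZMod d) = (k : ZMod d)),
        (k : ℝ) ^ (-(1 / 2) : ℝ) ≤ ((2 ^ J * y : ℕ) : ℝ) ^ (-(1 / 2) : ℝ) := by
      intro k hk
      rw [mem_filter, mem_Ioc] at hk
      refine Real.rpow_le_rpow_of_nonpos ?_ ?_ (by norm_num)
      · have : 0 < 2 ^ J * y := by positivity
        exact_mod_cast this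
      · exact_mod_cast hk.1.1.le
    refine (sum_le_sum h3).trans ?_
    rw [sum_const, nsmul_eq_mul, mul_comm]
    refine mul_le_mul_of_nonneg_left ?_ (by positivity)
    have h4 : ((Ioc (2 ^ J * y) (2 ^ (J + 1) * y)).filter
        (fun k : ℕ => ∃ u ∈ U, ((u : (ZMod d)ˣ) : ZMod d) = (k : ZMod d))).card ≤
        NU U (2 ^ (J + 1) * y) := by
      unfold NU
      refine card_le_card ?_
      intro k hk
      rw [mem_filter, mem_Ioc] at hk
      rw [mem_filter, mem_Icc]
      exact ⟨⟨by omega, hk.1.2⟩, hk.2⟩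
    exact_mod_cast h4

end Pool.Agent.Y445.R8
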